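import Mathlib

/-!
# Minimum connected distance dominating sets need not be claw- and net-free

A connected graph on `13` vertices without induced `S_2` and `T_2`, whose only minimum connected dominating set
(`k = 2`, distance `k - 1 = 1`) induces a claw.
-/

namespace Pool.Agent.Results.MP_8b4774_co.ClawCore

/-- `S_k`: the claw each of whose three edges is replaced by a path of length `k`. The centre is `none`, and the
`j`-th vertex after the centre on the `i`-th leg is `some (i, j - 1)`. -/
def subdividedClaw (k : ℕ) : SimpleGraph (Option (Fin 3 × Fin k)) :=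
  SimpleGraph.fromRel fun x y => match x, y with
    | none, some (_, j) => j.val = 0
    | some (i, j), some (i', j') => i = i' ∧ j'.val = j.val + 1
    | _, none => False

/-- `T_k`: a triangle, with vertices `(i, 0)`, and a path of length `k` attached to each of its vertices, the one
attached to `(i, 0)` consisting of `(i, 0), (i, 1), …, (i, k)`. -/
def subdividedNet (k : ℕ) : SimpleGraph (Fin 3 × Fin (k + 1)) :=
  SimpleGraph.fromRel fun x y =>
    (x.1 ≠ y.1 ∧ x.2.val = 0 ∧ y.2.val = 0) ∨ (x.1 = y.1 ∧ y.2.val = x.2.val + 1)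

/-- `D` is a connected distance-`r` dominating set of `G`: it is nonempty, it induces a connected graph, and every
vertex of `G` is joined to a vertex of `D` by a walk of length at most `r`. -/
def IsConnectedDominating {V : Type} (G : SimpleGraph V) (r : ℕ) (D : Finset V) : Prop :=
  D.Nonempty ∧ (G.induce (D : Set V)).Connected ∧ ∀ v : V, ∃ d ∈ D, ∃ p : G.Walk v d, p.length ≤ r

/-- `D` is a connected distance-`r` dominating set of `G` of the smallest cardinality. -/
def IsMinimumConnectedDominating {V : Type} (G : SimpleGraph V) (r : ℕ) (D : Finset V) : Prop :=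
  IsConnectedDominating G r D ∧ ∀ D' : Finset V, IsConnectedDominating G r D' → D.card ≤ D'.card

/-- Neighbourhoods, as bit masks. -/
def nb : ℕ → ℕ
  | 0 => 14 | 1 => 6289 | 2 => 5409 | 3 => 3649 | 4 => 226 | 5 => 340 | 6 => 56 | 7 => 786
  | 8 => 1700 | 9 => 392 | 10 => 2316 | 11 => 1034 | 12 => 6 | _ => 0

/-- Adjacency. -/
def ad (i j : Fin 13) : Bool := (nb i.val).testBit j.val

/-- The graph. -/
def G : SimpleGraph (Fin 13) where
  Adj i j := ad i j = true
  symm := ⟨by decide +kernel⟩
  loopless := ⟨by decide +kernel⟩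

theorem no_claw : ∀ c a : Fin 13, ad c a = true → ∀ b : Fin 13, (ad c b && (a != b) && !ad a b) = true →
    ∀ d : Fin 13, (ad c d && (a != d) && (b != d) && !ad a d && !ad b d) = true →
    ∀ e : Fin 13, (ad a e && !ad c e && !ad b e && !ad d e && (e != c)) = true →
    ∀ f : Fin 13, (ad b f && !ad c f && !ad a f && !ad d f && !ad e f && (f != c)) = true →
    ∀ g : Fin 13,
      (ad d g && !ad c g && !ad a g && !ad b g && !ad e g && !ad f g && (g != c)) = false := by
  decide +kernel

theorem no_net : ∀ a b : Fin 13, ad a b = true → ∀ c : Fin 13, (ad a c && ad b c) = true →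
    ∀ p : Fin 13, (ad a p && !ad b p && !ad c p && (p != b) && (p != c)) = true →
    ∀ q : Fin 13, (ad b q && !ad a q && !ad c q && !ad p q && (q != a) && (q != c)) = true →
    ∀ r : Fin 13, (ad c r && !ad a r && !ad b r && !ad p r && !ad q r && (r != a) && (r != b)) = true →
    ∀ x : Fin 13, (ad p x && !ad a x && !ad b x && !ad c x && !ad q x && !ad r x && (x != a)) = true →
    ∀ y : Fin 13, (ad q y && !ad a y && !ad b y && !ad c y && !ad p y && !ad r y && !ad x y &&
      (y != b)) = true →
    ∀ z : Fin 13, (ad r z && !ad a z && !ad b z && !ad c z && !ad p z && !ad q z && !ad x z &&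
      !ad y z && (z != c)) = false := by
  decide +kernel

theorem adj_iff (i j : Fin 13) : G.Adj i j ↔ ad i j = true := Iff.rfl

theorem claw_free : ¬ (subdividedClaw 2).IsIndContained G := by
  rintro ⟨f⟩
  have t : ∀ x y, ad (f x) (f y) = true ↔ (subdividedClaw 2).Adj x y := fun x y => f.map_rel_iff
  have t' : ∀ x y, ad (f x) (f y) = false ↔ ¬ (subdividedClaw 2).Adj x y := fun x y => by
    rw [← t, Bool.not_eq_true]
  have := no_claw (f none) (f (some (0, 0))) (by rw [t]; simp [subdividedClaw])
    (f (some (1, 0))) (by simp only [t, t', Bool.and_eq_true, Bool.not_eq_true', bne_iff_ne, ne_eq, f.injective.eq_iff]; simp [subdividedClaw])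
    (f (some (2, 0))) (by simp only [t, t', Bool.and_eq_true, Bool.not_eq_true', bne_iff_ne, ne_eq, f.injective.eq_iff]; simp [subdividedClaw])
    (f (some (0, 1))) (by simp only [t, t', Bool.and_eq_true, Bool.not_eq_true', bne_iff_ne, ne_eq, f.injective.eq_iff]; simp [subdividedClaw])
    (f (some (1, 1))) (by simp only [t, t', Bool.and_eq_true, Bool.not_eq_true', bne_iff_ne, ne_eq, f.injective.eq_iff]; simp [subdividedClaw])
    (f (some (2, 1)))
  rw [← Bool.not_eq_true] at this
  apply this
  simp only [t, t', Bool.and_eq_true, Bool.not_eq_true', bne_iff_ne, ne_eq, f.injective.eq_iff]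
  simp [subdividedClaw]

theorem net_free : ¬ (subdividedNet 2).IsIndContained G := by
  rintro ⟨f⟩
  have t : ∀ x y, ad (f x) (f y) = true ↔ (subdividedNet 2).Adj x y := fun x y => f.map_rel_iff
  have t' : ∀ x y, ad (f x) (f y) = false ↔ ¬ (subdividedNet 2).Adj x y := fun x y => by
    rw [← t, Bool.not_eq_true]
  have := no_net (f (0, 0)) (f (1, 0)) (by rw [t]; simp [subdividedNet])
    (f (2, 0)) (by simp only [t, t', Bool.and_eq_true, Bool.not_eq_true', bne_iff_ne, ne_eq, f.injective.eq_iff]; simp [subdividedNet])
    (f (0, 1)) (by simp only [t, t', Bool.and_eq_true, Bool.not_eq_true', bne_iff_ne, ne_eq, f.injective.eq_iff]; simp [subdividedNet])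
    (f (1, 1)) (by simp only [t, t', Bool.and_eq_true, Bool.not_eq_true', bne_iff_ne, ne_eq, f.injective.eq_iff]; simp [subdividedNet])
    (f (2, 1)) (by simp only [t, t', Bool.and_eq_true, Bool.not_eq_true', bne_iff_ne, ne_eq, f.injective.eq_iff]; simp [subdividedNet])
    (f (0, 2)) (by simp only [t, t', Bool.and_eq_true, Bool.not_eq_true', bne_iff_ne, ne_eq, f.injective.eq_iff]; simp [subdividedNet])
    (f (1, 2)) (by simp only [t, t', Bool.and_eq_true, Bool.not_eq_true', bne_iff_ne, ne_eq, f.injective.eq_iff]; simp [subdividedNet])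
    (f (2, 2))
  rw [← Bool.not_eq_true] at this
  apply this
  simp only [t, t', Bool.and_eq_true, Bool.not_eq_true', bne_iff_ne, ne_eq, f.injective.eq_iff]
  simp [subdividedNet]

/-- One step of the closure in `{a, b, c, d}`. -/
def step (a b c d C : ℕ) : ℕ :=
  C ||| (((bif C.testBit a then nb a else 0) ||| (bif C.testBit b then nb b else 0) |||
    (bif C.testBit c then nb c else 0) ||| (bif C.testBit d then nb d else 0)) &&&
    (2 ^ a ||| 2 ^ b ||| 2 ^ c ||| 2 ^ d))

/-- The component of `a` in `{a, b, c, d}`. -/
def comp (a b c d : ℕ) : ℕ := step a b c d (step a b c d (step a b c d (2 ^ a)))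

/-- Membership in `{a, b, c, d}`. -/
def mem (a b c d x : Fin 13) : Bool := x == a || x == b || x == c || x == d

/-- Domination by `{a, b, c, d}`. -/
def dom (a b c d v : Fin 13) : Bool := mem a b c d v || ad v a || ad v b || ad v c || ad v d

/-- The test: `{a, b, c, d}` is not dominating, or it is `{0, 1, 2, 3}`, or it is not connected. -/
def test (a b c d : Fin 13) : Prop :=
  (∀ v : Fin 13, dom a b c d v = true) →
  ((∀ v : Fin 13, mem a b c d v = decide (v.val < 4)) ∨
    ((comp a b c d).testBit a.val = true ∧
      (∀ x : Fin 13, (mem a b c d x && (comp a b c d).testBit x.val) = true →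
        ∀ y : Fin 13, (mem a b c d y && ad x y) = true → (comp a b c d).testBit y.val = true) ∧
      ∃ x : Fin 13, (mem a b c d x && !(comp a b c d).testBit x.val) = true))

instance (a b c d : Fin 13) : Decidable (test a b c d) := by unfold test; infer_instance

theorem test_all : ∀ a b : Fin 13, a ≤ b → ∀ c : Fin 13, b ≤ c → ∀ d : Fin 13, c ≤ d → test a b c d := by
  decide +kernel

theorem mem_iff (a b c d x : Fin 13) : mem a b c d x = true ↔ x = a ∨ x = b ∨ x = c ∨ x = d := by
  simp [mem, or_assoc]

/-- A set of at most four elements. -/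
theorem exists_four (D : Finset (Fin 13)) (hD : D.Nonempty) (h4 : D.card ≤ 4) :
    ∃ a b c d : Fin 13, a ≤ b ∧ b ≤ c ∧ c ≤ d ∧ ∀ x, x ∈ D ↔ mem a b c d x = true := by
  have h1 : ∀ x, x ∈ D.sort ↔ x ∈ D := fun x => Finset.mem_sort _
  have h2 : D.sort.length = D.card := Finset.length_sort _
  have h3 : List.Pairwise (· ≤ ·) D.sort := Finset.pairwise_sort _ _
  have h5 : 0 < D.card := hD.card_pos
  generalize D.sort = l at h1 h2 h3
  rcases l with _ | ⟨a, _ | ⟨b, _ | ⟨c, _ | ⟨d, _ | ⟨e, l⟩⟩⟩⟩⟩
  · simp at h2; omega
  · refine ⟨a, a, a, a, le_rfl, le_rfl, le_rfl, fun x => ?_⟩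
    rw [← h1, mem_iff]; simp
  · simp at h3
    refine ⟨a, b, b, b, h3, le_rfl, le_rfl, fun x => ?_⟩
    rw [← h1, mem_iff]; simp
  · simp at h3
    refine ⟨a, b, c, c, h3.1.1, h3.2, le_rfl, fun x => ?_⟩
    rw [← h1, mem_iff]; simp
  · simp at h3
    refine ⟨a, b, c, d, h3.1.1, h3.2.1.1, h3.2.2, fun x => ?_⟩
    rw [← h1, mem_iff]; simp
  · simp at h2; omega

/-- Every connected dominating set with at most four vertices is `{0, 1, 2, 3}`. -/
theorem eq_core (D : Finset (Fin 13)) (hD : IsConnectedDominating G 1 D) (h4 : D.card ≤ 4) :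
    ∀ v : Fin 13, v ∈ D ↔ v.val < 4 := by
  obtain ⟨hne, hconn, hdom⟩ := hD
  obtain ⟨a, b, c, d, hab, hbc, hcd, hm⟩ := exists_four D hne h4
  have ht := test_all a b hab c hbc d hcd
  have hd : ∀ v : Fin 13, dom a b c d v = true := by
    intro v
    obtain ⟨x, hx, p, hp⟩ := hdom v
    have hxv : v = x ∨ ad v x = true := by
      cases p with
      | nil => left; rfl
      | cons h q =>
        cases q with
        | nil => right; exact h
        | cons h' q' => simp at hp
    rw [hm, mem_iff] at hx
    rcases hxv with rfl | hxv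
    · simp only [dom, Bool.or_eq_true, mem_iff]
      tauto
    · simp only [dom, Bool.or_eq_true, mem_iff]
      rcases hx with rfl | rfl | rfl | rfl <;> simp [hxv]
  rcases ht hd with h | ⟨h1, h2, x, hx⟩
  · intro v
    rw [hm, h v]
    simp
  · exfalso
    rw [Bool.and_eq_true, Bool.not_eq_true'] at hx
    obtain ⟨hx1, hx2⟩ := hx
    have haD : a ∈ D := by rw [hm, mem_iff]; simp
    have hxD : x ∈ D := by rw [hm]; exact hx1
    have hreach : (G.induce (D : Set (Fin 13))).Reachable ⟨a, haD⟩ ⟨x, hxD⟩ := hconn.preconnected _ _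
    have key : ∀ u v : (D : Set (Fin 13)), (G.induce (D : Set (Fin 13))).Reachable u v →
        (comp a b c d).testBit u.1.val = true → (comp a b c d).testBit v.1.val = true := by
      rintro u v ⟨p⟩
      induction p with
      | nil => exact fun h => h
      | @cons u v w h q ih =>
        intro hu
        apply ih
        have hadj : ad u.1 v.1 = true := h
        refine h2 u.1 ?_ v.1 ?_
        · rw [Bool.and_eq_true]; exact ⟨(hm _).1 u.2, hu⟩
        · rw [Bool.and_eq_true]; exact ⟨(hm _).1 v.2, hadj⟩
    have := key _ _ hreach h1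
    rw [hx2] at this
    exact Bool.noConfusion this

theorem connected_G : G.Connected := by
  rw [SimpleGraph.connected_iff_exists_forall_reachable]
  refine ⟨0, fun w => ?_⟩
  have h : ∀ w : Fin 13, w = 0 ∨ ad 0 w = true ∨ ∃ v, ad 0 v = true ∧ ad v w = true := by decide +kernel
  rcases h w with rfl | h | ⟨v, h1, h2⟩
  · exact SimpleGraph.Reachable.refl _
  · exact SimpleGraph.Adj.reachable h
  · exact (SimpleGraph.Adj.reachable (G := G) h1).trans (SimpleGraph.Adj.reachable (G := G) h2)

/-- The core `{0, 1, 2, 3}`. -/
def core : Finset (Fin 13) := {0, 1, 2, 3}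

theorem core_dominating : IsConnectedDominating G 1 core := by
  refine ⟨⟨0, by simp [core]⟩, ?_, ?_⟩
  · rw [SimpleGraph.connected_iff_exists_forall_reachable]
    refine ⟨⟨0, by simp [core]⟩, ?_⟩
    rintro ⟨w, hw⟩
    have h : ∀ w : Fin 13, w ∈ core → w = 0 ∨ ad 0 w = true := by decide +kernel
    rcases h w hw with rfl | h
    · exact SimpleGraph.Reachable.refl _
    · exact SimpleGraph.Adj.reachable h
  · intro v
    have h : ∀ v : Fin 13, ∃ x ∈ core, v = x ∨ ad v x = true := by decide +kernel
    obtain ⟨x, hx, rfl | hv⟩ := h v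
    · exact ⟨v, hx, SimpleGraph.Walk.nil, by simp⟩
    · have hv' : G.Adj v x := hv
      exact ⟨x, hx, SimpleGraph.Walk.cons hv' SimpleGraph.Walk.nil, by simp⟩

/-- **Main theorem.** There is a connected graph on `13` vertices, without induced `S_2` and without induced `T_2`,
such that every minimum connected (distance-`1`) dominating set induces a graph containing an induced claw; in fact
there is only one minimum connected dominating set `D`, and the graph induced by it is the claw. -/
theorem result : ∃ G : SimpleGraph (Fin 13), G.Connected ∧ ¬ (subdividedClaw 2).IsIndContained G ∧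
    ¬ (subdividedNet 2).IsIndContained G ∧
    ∃ D : Finset (Fin 13), IsMinimumConnectedDominating G 1 D ∧
      (∀ D' : Finset (Fin 13), IsMinimumConnectedDominating G 1 D' → D' = D) ∧
      Nonempty (subdividedClaw 1 ≃g G.induce (D : Set (Fin 13))) := by
  refine ⟨G, connected_G, claw_free, net_free, core, ⟨core_dominating, ?_⟩, ?_, ?_⟩
  · intro D' hD'
    by_contra hlt
    push Not at hlt
    have hc : core.card = 4 := by decide
    have h := eq_core D' hD' (by omega)
    have : D' = core := by
      ext v
      rw [h v]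
      have : ∀ v : Fin 13, v.val < 4 ↔ v ∈ core := by decide +kernel
      exact this v
    rw [this] at hlt
    exact lt_irrefl _ hlt
  · intro D' hD'
    have hc : core.card = 4 := by decide
    have h := eq_core D' hD'.1 (by rw [← hc]; exact hD'.2 core core_dominating)
    ext v
    rw [h v]
    have : ∀ v : Fin 13, v.val < 4 ↔ v ∈ core := by decide +kernel
    exact this v
  · refine ⟨⟨⟨fun x => match x with
        | none => ⟨0, by simp [core]⟩
        | some (i, _) => ⟨⟨i.val + 1, by omega⟩, ?_⟩,
      fun y => if h : y.1.val = 0 then none else some (⟨y.1.val - 1, ?_⟩, 0), ?_, ?_⟩, ?_⟩⟩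
    · fin_cases i <;> simp [core]
    · obtain ⟨y, hy⟩ := y
      have : ∀ v : Fin 13, v ∈ core → v.val < 4 := by decide +kernel
      have := this y hy
      simp only
      simp only at h
      omega
    · rintro (_ | ⟨i, j⟩)
      · simp
      · have : j = 0 := Subsingleton.elim _ _
        subst this
        simp
    · rintro ⟨y, hy⟩
      by_cases h : y.val = 0
      · have : y = 0 := Fin.ext h
        subst this
        simp
      · simp only [h, dite_false]
        apply Subtype.ext
        apply Fin.ext
        simp only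
        omega
    · have h0 : ∀ i : Fin 3, ad 0 ⟨i.val + 1, by omega⟩ = true := by decide +kernel
      have h0' : ∀ i : Fin 3, ad ⟨i.val + 1, by omega⟩ 0 = true := by decide +kernel
      have h1 : ∀ i j : Fin 3, ad ⟨i.val + 1, by omega⟩ ⟨j.val + 1, by omega⟩ ≠ true := by
        decide +kernel
      have h2 : ad 0 0 ≠ true := by decide +kernel
      rintro (_ | ⟨i, j⟩) (_ | ⟨i', j'⟩)
      · exact iff_of_false h2 (SimpleGraph.irrefl _)
      · have hj : j' = 0 := Subsingleton.elim _ _
        subst hj
        refine iff_of_true (h0 i') ?_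
        simp [subdividedClaw]
      · have hj : j = 0 := Subsingleton.elim _ _
        subst hj
        refine iff_of_true (h0' i) ?_
        simp [subdividedClaw]
      · have hj : j = 0 := Subsingleton.elim _ _
        have hj' : j' = 0 := Subsingleton.elim _ _
        subst hj hj'
        refine iff_of_false (h1 i i') ?_
        simp [subdividedClaw]

end Pool.Agent.Results.MP_8b4774_co.ClawCore
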